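import Pool.Agent.Q72.EG.All

/-!
# Axiom (SEAC) (i) in the complex exponential field: varieties over a hypersurface

`G_n = ℂ^n × (ℂ^*)^n`; its elements are functions on `Fin n ⊕ Fin n` (`Sum.inl`: the coordinates
`x`, `Sum.inr`: the coordinates `y`).  The exponential points are the points `(z, e^z)`.

Let `V ⊆ G_n` be irreducible of dimension `n`, and suppose that the closure of its projection to
`ℂ^n` is a hypersurface `P = 0`, `P` irreducible.  (The case of a dominant projection to `ℂ^n` is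
the theorem of Brownawell and Masser; the case of a curve is due to Mantova and Masser.)
We prove that the exponential points are Zariski dense in all translates of `V` if the leading
form of `P` satisfies one of the following conditions.

(a) `n ≥ 2` and the leading form of `P` has no real zero except `0`.

(b) The leading form of `P` has an irreducible factor which is not a constant multiple of a real
polynomial, and there are no two linearly independent `m, m'` such that the monomials `y^m`,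
`y^{m'}` are algebraic over `ℂ(x)` on `V`.

In both cases, if `V` is defined over a countable field `K`, then almost all translates `c V`
contain an exponential point which is generic over `K(c)`, as `(SEAC) (i)` asks.
(Conditions on the lower terms of `P` are treated in `FlatLimitProjections`.)

Proof: an end of the generic fibre of `V → {P = 0}`, a curve in the torus, with direction `a`:
`y_l ~ Y^{a_l}`, `Y → 0`. Solutions of `x = log y + 2 π i M` are found by a contraction argument on
pieces `u + w(u) a` of the hypersurface with `Re w(u) → -∞`, of a size much larger than the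
logarithm of the coordinates; they exist if the asymptotic cone of the hypersurface has points
`t a + i κ`, `t < 0`, `κ` real.
-/

set_option autoImplicit false

open MvPolynomial MeasureTheory Filter Topology

namespace Pool.Agent.Results.MP_209724_lc.HypersurfaceProjections

/-- `V` is the set of points of `G_n = ℂ^n × (ℂ^*)^n` on which the prime ideal `I` vanishes: an
irreducible subvariety. -/
structure IsVariety {n : ℕ} (I : Ideal (MvPolynomial (Fin n ⊕ Fin n) ℂ))
    (V : Set (Fin n ⊕ Fin n → ℂ)) : Prop where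
  prime : I.IsPrime
  points : V = {p | (∀ f ∈ I, eval p f = 0) ∧ ∀ j : Fin n, p (Sum.inr j) ≠ 0}
  nonempty : V.Nonempty

/-- the coordinates with index in `J` are algebraically independent on `V` -/
def Indep {n : ℕ} (V : Set (Fin n ⊕ Fin n → ℂ)) (J : Finset (Fin n ⊕ Fin n)) : Prop :=
  ∀ f : MvPolynomial (Fin n ⊕ Fin n) ℂ, f.vars ⊆ J → (∀ p ∈ V, eval p f = 0) → f = 0

/-- `dim V = d`: the largest number of algebraically independent coordinates is `d` -/
def HasDim {n : ℕ} (V : Set (Fin n ⊕ Fin n → ℂ)) (d : ℕ) : Prop :=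
  (∃ J, J.card = d ∧ Indep V J) ∧ ∀ J, J.card = d + 1 → ¬ Indep V J

/-- the closure of the projection of `V` to `ℂ^n` is the hypersurface `P = 0` -/
def ProjectsOnto {n : ℕ} (V : Set (Fin n ⊕ Fin n → ℂ)) (P : MvPolynomial (Fin n) ℂ) : Prop :=
  Irreducible P ∧ ∀ f : MvPolynomial (Fin n) ℂ,
    (∀ p ∈ V, eval (fun l => p (Sum.inl l)) f = 0) ↔ P ∣ f

/-- the monomial `y^m` is algebraic over `ℂ(x)` on `V` -/
def MonomialAlgebraic {n : ℕ} (V : Set (Fin n ⊕ Fin n → ℂ)) (P : MvPolynomial (Fin n) ℂ)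
    (m : Fin n → ℤ) : Prop :=
  ∃ A : Polynomial (MvPolynomial (Fin n) ℂ), (∃ b, ¬ P ∣ A.coeff b) ∧
    ∀ p ∈ V, (A.map (eval fun l => p (Sum.inl l))).eval (∏ l, p (Sum.inr l) ^ m l) = 0

/-- the leading form of `P` -/
noncomputable def leading {n : ℕ} (P : MvPolynomial (Fin n) ℂ) : MvPolynomial (Fin n) ℂ :=
  homogeneousComponent P.totalDegree P

/-- `G` is a constant multiple of a real polynomial -/
def RealUpToConstant {n : ℕ} (G : MvPolynomial (Fin n) ℂ) : Prop :=
  ∃ c : ℂ, c ≠ 0 ∧ ∀ m, (coeff m (C c * G)).im = 0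

/-- the translate `c V` -/
def Translate {n : ℕ} (c : Fin n ⊕ Fin n → ℂ) (V : Set (Fin n ⊕ Fin n → ℂ)) :
    Set (Fin n ⊕ Fin n → ℂ) :=
  {p | ∃ u ∈ V, p = Sum.elim (fun i => u (Sum.inl i) + c (Sum.inl i))
    (fun i => c (Sum.inr i) * u (Sum.inr i))}

/-- the exponential point `(z, e^z)` -/
noncomputable def ExpPoint {n : ℕ} (z : Fin n → ℂ) : Fin n ⊕ Fin n → ℂ :=
  Sum.elim z (fun i => Complex.exp (z i))

/-- `tr.deg_{K(c)} K(c)(z, e^z)` -/
noncomputable def trdegOver {n : ℕ} (K : Subfield ℂ) (c : Fin n ⊕ Fin n → ℂ) (z : Fin n → ℂ) :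
    Cardinal :=
  Algebra.trdeg (IntermediateField.adjoin K (Set.range c))
    (IntermediateField.adjoin (IntermediateField.adjoin K (Set.range c)) (Set.range (ExpPoint z)))

theorem result {n : ℕ} (I : Ideal (MvPolynomial (Fin n ⊕ Fin n) ℂ))
    (V : Set (Fin n ⊕ Fin n → ℂ)) (hV : IsVariety I V) (hdim : HasDim V n)
    (P : MvPolynomial (Fin n) ℂ) (hP : ProjectsOnto V P)
    (hcase :
      -- (a) the leading form has no real zero
      (2 ≤ n ∧ ∀ κ : Fin n → ℝ, κ ≠ 0 → eval (fun i => (κ i : ℂ)) (leading P) ≠ 0) ∨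
      -- (b) the leading form has a factor which is not real
      ((∃ G, Irreducible G ∧ G ∣ leading P ∧ ¬ RealUpToConstant G) ∧
        ∀ m m' : Fin n → ℤ, LinearIndependent ℤ ![m, m'] →
          ¬ (MonomialAlgebraic V P m ∧ MonomialAlgebraic V P m'))) :
    -- (1) exponential points are Zariski dense in all translates of `V`
    (∀ c : Fin n ⊕ Fin n → ℂ, (∀ i, c (Sum.inr i) ≠ 0) →
      ∀ H : MvPolynomial (Fin n ⊕ Fin n) ℂ, (∃ p ∈ Translate c V, eval p H ≠ 0) →
      ∃ z : Fin n → ℂ, ExpPoint z ∈ Translate c V ∧ eval (ExpPoint z) H ≠ 0) ∧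
    -- (2) generic exponential points on almost all translates
    (∀ (K : Subfield ℂ) [Countable K],
      (∃ S : Set (MvPolynomial (Fin n ⊕ Fin n) K),
        I = Ideal.span (MvPolynomial.map (algebraMap K ℂ) '' S)) →
      ∀ᵐ c : Fin n ⊕ Fin n → ℂ, ∃ z : Fin n → ℂ, ExpPoint z ∈ Translate c V ∧
        trdegOver K c z = n) := by
  have part1 : ∀ c : Fin n ⊕ Fin n → ℂ, (∀ i, c (Sum.inr i) ≠ 0) →
      ∀ H : MvPolynomial (Fin n ⊕ Fin n) ℂ, (∃ p ∈ Translate c V, eval p H ≠ 0) →
      ∃ z : Fin n → ℂ, ExpPoint z ∈ Translate c V ∧ eval (ExpPoint z) H ≠ 0 := by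
    intro c hc
    obtain ⟨ha, hb, -⟩ := Pool.Agent.Q72.EG.vv_translate Pool.Agent.Q72.EG.all_VV n I V P
      ⟨hV.prime, hV.points, hV.nonempty⟩ hdim hP c hc
    rcases hcase with ⟨hn, hell⟩ | ⟨⟨G, hG1, hG2, hG3⟩, hm⟩
    · exact ha hn hell
    · exact hb G hG1 hG2 hG3 fun m m' hmm' => not_and_or.1 (hm m m' hmm')
  refine ⟨part1, ?_⟩
  rintro K hK ⟨S, hS⟩
  obtain ⟨-, hd⟩ := hdim
  have h1 := Pool.Agent.Y563.SE.generic_pts I V hV.prime hV.points hV.nonempty (by
    intro J' hJ'
    have h1 := hd J' hJ'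
    unfold Indep at h1
    push Not at h1
    obtain ⟨f, h2, h3, h4⟩ := h1
    exact ⟨f, h4, h2, h3⟩) K S hS
  have h2 : ∀ᵐ c : Fin n ⊕ Fin n → ℂ, ∀ i : Fin n, c (Sum.inr i) ≠ 0 := by
    rw [ae_all_iff]
    intro i
    rw [ae_iff]
    simp only [not_not]
    exact Pool.Agent.Y563.SE.null_fintype (fun c : Fin n ⊕ Fin n → ℂ => c (Sum.inr i))
      (differentiable_apply _) ⟨fun _ => 1, one_ne_zero⟩
  filter_upwards [h1, h2] with c hc1 hc2
  obtain ⟨u, hu⟩ := hV.nonempty
  obtain ⟨z, hz, -⟩ := part1 c hc2 1 ⟨_, ⟨u, hu, rfl⟩, by simp⟩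
  exact ⟨z, hz, hc1 z hz⟩

end Pool.Agent.Results.MP_209724_lc.HypersurfaceProjections
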