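import Pool.Agent.Q72.EL.Fin

/-!
# Axiom (SEAC) (i) in the complex exponential field: projections of intermediate dimension

`G_n = ℂ^n × (ℂ^*)^n`; its elements are functions on `Fin n ⊕ Fin n` (`Sum.inl`: the coordinates
`x`, `Sum.inr`: the coordinates `y`).  The exponential points are the points `(z, e^z)`.

Let `V ⊆ G_n` be irreducible of dimension at least `n`, and let `n - c` be the dimension of its
projection to `ℂ^n`.  Known cases: `c = 0` (Brownawell and Masser), `n - c = 1` (Mantova and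
Masser), products `L × W` with `L` linear (Gallinaro), and many cases with `c = 1`.  We treat
arbitrary `c ≤ n / 2`.

Rational vectors `a_1, …, a_c` are called admissible for `V` if they are linearly independent and
orthogonal to all `m ∈ ℤ^n` such that the monomial `y^m` is algebraic over `ℂ(x)` on `V`.  A vector
`z ∈ ℂ^n` is transversal for `a_1, …, a_c` if it lies on the asymptotic cone of the projection of
`V`, this cone is reduced at `z`, and its tangent space at `z` is a complement of the space spanned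
by the `a_k`; in formulas: there are polynomials `P_1(x), …, P_c(x)` and `Q(x)`, the `P_j` vanish on
`V` and generate the ideal of the projection outside of `Q = 0`, and for the leading forms
`F_j` of `P_j` we have `F_j(z) = 0`, `det (∂F_j/∂a_k (z)) ≠ 0`, and the leading form of `Q` does not
vanish at `z`.

Condition (H): for all admissible `a_1, …, a_c` the set of the `λ ∈ ℝ^c` such that
`∑ λ_k a_k + i κ` is transversal for some `κ ∈ ℝ^n` is dense.

Condition (L): there are linear forms `q_1, …, q_c` on `ℂ^n` whose real and imaginary parts are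
linearly independent (`2 c` real vectors), with `det (q_j · a_k) ≠ 0` for all admissible
`a_1, …, a_c`, and polynomials `P_j`, `Q` as above such that the leading form of `P_j` is `q_j G_j` and the
`G_j` and the leading form of `Q` do not vanish identically on the subspace
`q_1 = … = q_c = 0`.  (Example: the projection is dense in an affine subspace
`q_1 = d_1, …, q_c = d_c`; a general affine subspace of dimension at least `n / 2` has the two
properties of the `q_j`.)

We prove that (L) implies (H), and that (H) implies that the exponential points are Zariski dense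
in all translates of `V`, and, for `dim V = n`, that almost all translates `c V` contain an
exponential point which is generic over `K(c)`, if `V` is defined over the countable field `K`.

Proof: choose an end of the generic fibre of the projection, a variety of dimension `c` in the
torus, given by a valuation such that `y_l ~ Y^{a_l}` with `c` monomials `Y_1, …, Y_c` of `ℚ`-linearly
independent orders `λ_k`.  By (H) there are holomorphic pieces `u + ∑ w_k(u) a_k` of the projection
over balls around the points `2 π i M`, `M` integral, of a size much larger than the logarithm of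
the coordinates, with `Re w_k(u)` close to `- λ_k T`.  On them the equation `x = log y + 2 π i M` is
solved by a contraction argument.
-/

set_option autoImplicit false

open MvPolynomial MeasureTheory Filter Topology

namespace Pool.Agent.Results.MP_209724_lc.IntermediateProjections

/-- `V` is the set of points of `G_n = ℂ^n × (ℂ^*)^n` on which the prime ideal `I` vanishes: an
irreducible subvariety. -/
structure IsVariety {n : ℕ} (I : Ideal (MvPolynomial (Fin n ⊕ Fin n) ℂ))
    (V : Set (Fin n ⊕ Fin n → ℂ)) : Prop where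
  prime : I.IsPrime
  points : V = {p | (∀ f ∈ I, eval p f = 0) ∧ ∀ j : Fin n, p (Sum.inr j) ≠ 0}
  nonempty : V.Nonempty

/-- the coordinates with index in `J` are algebraically independent on `V` -/
def Indep {n : ℕ} (V : Set (Fin n ⊕ Fin n → ℂ)) (J : Finset (Fin n ⊕ Fin n)) : Prop :=
  ∀ f : MvPolynomial (Fin n ⊕ Fin n) ℂ, f.vars ⊆ J → (∀ p ∈ V, eval p f = 0) → f = 0

/-- `dim V = d`: the largest number of algebraically independent coordinates is `d` -/
def HasDim {n : ℕ} (V : Set (Fin n ⊕ Fin n → ℂ)) (d : ℕ) : Prop :=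
  (∃ J, J.card = d ∧ Indep V J) ∧ ∀ J, J.card = d + 1 → ¬ Indep V J

/-- the polynomial `g(x)` vanishes on `V` -/
def VanishesOn {n : ℕ} (V : Set (Fin n ⊕ Fin n → ℂ)) (g : MvPolynomial (Fin n) ℂ) : Prop :=
  ∀ p ∈ V, eval (fun l => p (Sum.inl l)) g = 0

/-- the dimension of the projection of `V` to `ℂ^n` is `e`: the largest number of algebraically
independent `x`-coordinates is `e` -/
def HasProjectionDim {n : ℕ} (V : Set (Fin n ⊕ Fin n → ℂ)) (e : ℕ) : Prop :=
  (∃ J : Finset (Fin n), J.card = e ∧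
    ∀ f : MvPolynomial (Fin n) ℂ, f.vars ⊆ J → VanishesOn V f → f = 0) ∧
  ∀ J : Finset (Fin n), J.card = e + 1 →
    ∃ f : MvPolynomial (Fin n) ℂ, f.vars ⊆ J ∧ VanishesOn V f ∧ f ≠ 0

/-- the monomial `y^m` is algebraic over `ℂ(x)` on `V` -/
def MonomialAlgebraic {n : ℕ} (V : Set (Fin n ⊕ Fin n → ℂ)) (m : Fin n → ℤ) : Prop :=
  ∃ A : Polynomial (MvPolynomial (Fin n) ℂ), (∃ b, ¬ VanishesOn V (A.coeff b)) ∧
    ∀ p ∈ V, (A.map (eval fun l => p (Sum.inl l))).eval (∏ l, p (Sum.inr l) ^ m l) = 0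

/-- the leading form of `P` -/
noncomputable def leading {n : ℕ} (P : MvPolynomial (Fin n) ℂ) : MvPolynomial (Fin n) ℂ :=
  homogeneousComponent P.totalDegree P

/-- the rational vectors `a_k = (a_lk)_l` are linearly independent and orthogonal to all `m` such
that `y^m` is algebraic over `ℂ(x)` on `V` -/
def Admissible {n c : ℕ} (V : Set (Fin n ⊕ Fin n → ℂ)) (a : Fin n → Fin c → ℚ) : Prop :=
  LinearIndependent ℚ (fun (k : Fin c) (l : Fin n) => a l k) ∧
    ∀ m, MonomialAlgebraic V m → ∀ k, ∑ l, (m l : ℚ) * a l k = 0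

/-- outside of `Q = 0` the projection of `V` is given by the equations `P_j = 0` -/
def GivenBy {n c : ℕ} (V : Set (Fin n ⊕ Fin n → ℂ)) (P : Fin c → MvPolynomial (Fin n) ℂ)
    (Q : MvPolynomial (Fin n) ℂ) : Prop :=
  (∀ j, VanishesOn V (P j)) ∧ ∀ g, VanishesOn V g → Q * g ∈ Ideal.span (Set.range P)

/-- `z` is a reduced point of the asymptotic cone of the projection of `V`, at which the tangent
space is a complement of the space spanned by the `a_k` -/
def Transversal {n c : ℕ} (V : Set (Fin n ⊕ Fin n → ℂ)) (a : Fin n → Fin c → ℚ)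
    (z : Fin n → ℂ) : Prop :=
  ∃ (P : Fin c → MvPolynomial (Fin n) ℂ) (Q : MvPolynomial (Fin n) ℂ), GivenBy V P Q ∧
    (∀ j, eval z (leading (P j)) = 0) ∧
    Matrix.det (Matrix.of fun j k : Fin c =>
      ∑ l, ((a l k : ℚ) : ℂ) * eval z (pderiv l (leading (P j)))) ≠ 0 ∧
    eval z (leading Q) ≠ 0

/-- Condition (H). -/
def ConditionH {n : ℕ} (V : Set (Fin n ⊕ Fin n → ℂ)) (c : ℕ) : Prop :=
  ∀ a : Fin n → Fin c → ℚ, Admissible V a →
    Dense {t : Fin c → ℝ | ∃ κ : Fin n → ℝ,
      Transversal V a fun l => ∑ k, (t k : ℂ) * ((a l k : ℚ) : ℂ) + Complex.I * (κ l : ℂ)}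

/-- Condition (L). -/
def ConditionL {n : ℕ} (V : Set (Fin n ⊕ Fin n → ℂ)) (c : ℕ) : Prop :=
  ∃ (q : Fin c → Fin n → ℂ) (P G : Fin c → MvPolynomial (Fin n) ℂ) (Q : MvPolynomial (Fin n) ℂ),
    LinearIndependent ℝ (Sum.elim (fun (j : Fin c) (l : Fin n) => (q j l).re)
      (fun (j : Fin c) (l : Fin n) => (q j l).im)) ∧
    (∀ a : Fin n → Fin c → ℚ, Admissible V a →
      Matrix.det (Matrix.of fun j k : Fin c => ∑ l, q j l * ((a l k : ℚ) : ℂ)) ≠ 0) ∧
    GivenBy V P Q ∧
    (∀ j, leading (P j) = (∑ l, C (q j l) * X l) * G j) ∧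
    (∀ j, ∃ z : Fin n → ℂ, (∀ i, ∑ l, q i l * z l = 0) ∧ eval z (G j) ≠ 0) ∧
    ∃ z : Fin n → ℂ, (∀ i, ∑ l, q i l * z l = 0) ∧ eval z (leading Q) ≠ 0

/-- the translate `c V` -/
def Translate {n : ℕ} (c : Fin n ⊕ Fin n → ℂ) (V : Set (Fin n ⊕ Fin n → ℂ)) :
    Set (Fin n ⊕ Fin n → ℂ) :=
  {p | ∃ u ∈ V, p = Sum.elim (fun i => u (Sum.inl i) + c (Sum.inl i))
    (fun i => c (Sum.inr i) * u (Sum.inr i))}

/-- the exponential point `(z, e^z)` -/
noncomputable def ExpPoint {n : ℕ} (z : Fin n → ℂ) : Fin n ⊕ Fin n → ℂ :=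
  Sum.elim z (fun i => Complex.exp (z i))

/-- `tr.deg_{K(c)} K(c)(z, e^z)` -/
noncomputable def trdegOver {n : ℕ} (K : Subfield ℂ) (c : Fin n ⊕ Fin n → ℂ) (z : Fin n → ℂ) :
    Cardinal :=
  Algebra.trdeg (IntermediateField.adjoin K (Set.range c))
    (IntermediateField.adjoin (IntermediateField.adjoin K (Set.range c)) (Set.range (ExpPoint z)))

theorem hyp_of_condition {n c : ℕ} {V : Set (Fin n ⊕ Fin n → ℂ)} (h : ConditionH V c) :
    Pool.Agent.Q72.EL.HypHM c (Pool.Agent.Q72.EL.projIdeal V)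
      {m | Pool.Agent.Q72.EL.MonAlgV V m} := by
  intro a ha hm lam ε hε
  obtain ⟨μ, hμ1, κ, P, Q, ⟨hP, hQ⟩, h1, h2, h3⟩ :=
    Metric.dense_iff.1 (h a ⟨ha, fun m hm' => hm m hm'⟩) lam ε hε
  refine ⟨μ, fun j => ?_, κ, P, Q, hP, fun g hg => hQ g hg, h1, h2, h3⟩
  rw [Metric.mem_ball, dist_eq_norm] at hμ1
  exact (norm_le_pi_norm (μ - lam) j).trans_lt hμ1

theorem condition_of_L {n c : ℕ} {V : Set (Fin n ⊕ Fin n → ℂ)} (h : ConditionL V c) :
    ConditionH V c := by
  obtain ⟨q, P, G, Q, hq, hdet, ⟨hP, hQ⟩, htop, hG, hQ0⟩ := h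
  intro a ha
  rw [Metric.dense_iff]
  intro lam ε hε
  obtain ⟨μ, hμ, κ, P', Q', h1, h2, h3, h4, h5⟩ := Pool.Agent.Q72.EL.LM.linq1 q
    (Pool.Agent.Q72.EL.projIdeal V) P G Q hq hP (fun g hg => hQ g hg) htop hG hQ0 a (hdet a ha)
    lam (ε / 2) (by positivity)
  refine ⟨μ, ?_, κ, P', Q', ⟨h1, fun g hg => h2 g hg⟩, h3, h4, h5⟩
  rw [Metric.mem_ball, dist_eq_norm]
  refine lt_of_le_of_lt ?_ (by linarith : ε / 2 < ε)
  rw [pi_norm_le_iff_of_nonneg (by positivity)]
  intro j
  exact (hμ j).le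

theorem result {n c D : ℕ} (hc : c ≤ n) (hD : n ≤ D) (I : Ideal (MvPolynomial (Fin n ⊕ Fin n) ℂ))
    (V : Set (Fin n ⊕ Fin n → ℂ)) (hV : IsVariety I V) (hdim : HasDim V D)
    (hproj : HasProjectionDim V (n - c)) :
    (ConditionL V c → ConditionH V c) ∧
    (ConditionH V c →
      -- (1) exponential points are Zariski dense in all translates of `V`
      (∀ c : Fin n ⊕ Fin n → ℂ, (∀ i, c (Sum.inr i) ≠ 0) →
        ∀ H : MvPolynomial (Fin n ⊕ Fin n) ℂ, (∃ p ∈ Translate c V, eval p H ≠ 0) →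
        ∃ z : Fin n → ℂ, ExpPoint z ∈ Translate c V ∧ eval (ExpPoint z) H ≠ 0) ∧
      -- (2) generic exponential points on almost all translates
      (D = n → ∀ (K : Subfield ℂ) [Countable K],
        (∃ S : Set (MvPolynomial (Fin n ⊕ Fin n) K),
          I = Ideal.span (MvPolynomial.map (algebraMap K ℂ) '' S)) →
        ∀ᵐ c : Fin n ⊕ Fin n → ℂ, ∃ z : Fin n → ℂ, ExpPoint z ∈ Translate c V ∧
          trdegOver K c z = n)) := by
  refine ⟨condition_of_L, fun hH => ?_⟩
  have part1 : ∀ c : Fin n ⊕ Fin n → ℂ, (∀ i, c (Sum.inr i) ≠ 0) →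
      ∀ H : MvPolynomial (Fin n ⊕ Fin n) ℂ, (∃ p ∈ Translate c V, eval p H ≠ 0) →
      ∃ z : Fin n → ℂ, ExpPoint z ∈ Translate c V ∧ eval (ExpPoint z) H ≠ 0 := by
    intro d hd
    exact Pool.Agent.Q72.EL.all_mainM Pool.Agent.Q72.EL.dom Pool.Agent.Q72.EL.slope n c D I V
      ⟨hV.prime, hV.points, hV.nonempty⟩ hdim hD hc hproj (hyp_of_condition hH) d hd
  refine ⟨part1, ?_⟩
  rintro rfl K hK ⟨S, hS⟩
  obtain ⟨-, hd⟩ := hdim
  have h1 := Pool.Agent.Y563.SE.generic_pts I V hV.prime hV.points hV.nonempty (by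
    intro J' hJ'
    have h1 := hd J' hJ'
    unfold Indep at h1
    push Not at h1
    obtain ⟨f, h2, h3, h4⟩ := h1
    exact ⟨f, h4, h2, h3⟩) K S hS
  have h2 : ∀ᵐ c : Fin D ⊕ Fin D → ℂ, ∀ i : Fin D, c (Sum.inr i) ≠ 0 := by
    rw [ae_all_iff]
    intro i
    rw [ae_iff]
    simp only [not_not]
    exact Pool.Agent.Y563.SE.null_fintype (fun c : Fin D ⊕ Fin D → ℂ => c (Sum.inr i))
      (differentiable_apply _) ⟨fun _ => 1, one_ne_zero⟩
  filter_upwards [h1, h2] with c hc1 hc2
  obtain ⟨u, hu⟩ := hV.nonempty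
  obtain ⟨z, hz, -⟩ := part1 c hc2 1 ⟨_, ⟨u, hu, rfl⟩, by simp⟩
  exact ⟨z, hz, hc1 z hz⟩

end Pool.Agent.Results.MP_209724_lc.IntermediateProjections
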