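import Pool.Agent.Q72.MX.All

/-!
# Axiom (SEAC) (i) in the complex exponential field: varieties over a mixed curve

`G_n = ℂ^n × (ℂ^*)^n`; its elements are functions on `Fin n ⊕ Fin n` (`Sum.inl`: the coordinates
`x`, `Sum.inr`: the coordinates `y`).  The exponential points are the points `(z, e^z)`.

Choose one coordinate from each of the pairs `(x_1, y_1), …, (x_n, y_n)`: `y_i` for `i ∈ J`, `x_i`
for `i ∉ J`.

(1) Every free irreducible `V ⊆ G_n` of dimension at least `n` whose projection to the chosen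
coordinates has dimension at most one contains exponential points, also outside of any
subvariety `H = 0`, `H` a polynomial in the chosen coordinates, which does not contain `V`.
The same holds for all translates of `V`.

(2) If moreover `dim V = n`, and `V` is defined over a countable field `K`, then almost all
translates `c V` contain an exponential point which is generic over `K(c)`, as `(SEAC) (i)` asks.

For `J = ∅` (curves in `ℂ^n`) part (1) is the case treated by Mantova and Masser, for `J` = all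
indices (curves in the torus) it is the result `CurvesInTheTorus` of the starting files, which is
used here; the new cases are the mixed ones, where neither projection of `V` is a curve.

Proof: over a curve `T` with units `R_i` (`i ∈ J`) and regular functions `S_j` (`j ∉ J`), `V` is a
hypersurface `∑_β y^β Q_β(x) = 0` in the other coordinates. If two of the `Q_β` are not zero one
looks at the exponents `β` with `Q_β` of maximal degree `D` in `x`. If there are two, the
exponential sum `∑ a_β exp (β·S)` of their leading coefficients in a direction `κ ∈ ℤ^n`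
has a zero on `T` and solutions exist near it, by Hurwitz, for `x + 2 π i N κ`, `N → ∞`. If there
is only one, then the other terms, multiplied with `exp (S·(β - β_0))`, balance `N^D` near a pole of `S·(β - β_0)`, in
a direction where the real part of a polar part is maximal. If only one `Q_β` is not zero then
the starting result applies.
-/

set_option autoImplicit false

open MvPolynomial MeasureTheory

namespace Pool.Agent.Results.MP_209724_lc.MixedCurves

/-- `V` is the set of points of `G_n = ℂ^n × (ℂ^*)^n` on which the prime ideal `P` vanishes: an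
irreducible subvariety. -/
structure IsVariety {n : ℕ} (P : Ideal (MvPolynomial (Fin n ⊕ Fin n) ℂ))
    (V : Set (Fin n ⊕ Fin n → ℂ)) : Prop where
  prime : P.IsPrime
  points : V = {p | (∀ f ∈ P, eval p f = 0) ∧ ∀ j : Fin n, p (Sum.inr j) ≠ 0}
  nonempty : V.Nonempty

/-- `V` is free: it lies in no set `∑ m_j x_j = c` and in no set `∏ y_j ^ m_j = c`, `m ≠ 0`. -/
structure Free {n : ℕ} (V : Set (Fin n ⊕ Fin n → ℂ)) : Prop where
  add : ∀ m : Fin n → ℤ, m ≠ 0 → ∀ c : ℂ, ∃ p ∈ V, (∑ j : Fin n, (m j : ℂ) * p (Sum.inl j)) ≠ c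
  mul : ∀ m : Fin n → ℤ, m ≠ 0 → ∀ c : ℂ, ∃ p ∈ V, (∏ j : Fin n, p (Sum.inr j) ^ (m j)) ≠ c

/-- the coordinates with index in `J` are algebraically independent on `V` -/
def Indep {n : ℕ} (V : Set (Fin n ⊕ Fin n → ℂ)) (J : Finset (Fin n ⊕ Fin n)) : Prop :=
  ∀ f : MvPolynomial (Fin n ⊕ Fin n) ℂ, f.vars ⊆ J → (∀ p ∈ V, eval p f = 0) → f = 0

/-- `dim V = d`: the largest number of algebraically independent coordinates is `d` -/
def HasDim {n : ℕ} (V : Set (Fin n ⊕ Fin n → ℂ)) (d : ℕ) : Prop :=
  (∃ J, J.card = d ∧ Indep V J) ∧ ∀ J, J.card = d + 1 → ¬ Indep V J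

/-- the chosen coordinate of the pair `(x_i, y_i)`: `y_i` for `i ∈ J`, `x_i` for `i ∉ J` -/
def base {n : ℕ} (J : Finset (Fin n)) (i : Fin n) : Fin n ⊕ Fin n :=
  if i ∈ J then Sum.inr i else Sum.inl i

/-- the projection of `V` to the chosen coordinates has dimension at most one: any two of them
are algebraically dependent on `V` -/
def CurveBase {n : ℕ} (V : Set (Fin n ⊕ Fin n → ℂ)) (J : Finset (Fin n)) : Prop :=
  ∀ i j : Fin n, ∃ f : MvPolynomial (Fin 2) ℂ, f ≠ 0 ∧
    ∀ p ∈ V, eval ![p (base J i), p (base J j)] f = 0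

/-- the translate `c V` -/
def Translate {n : ℕ} (c : Fin n ⊕ Fin n → ℂ) (V : Set (Fin n ⊕ Fin n → ℂ)) :
    Set (Fin n ⊕ Fin n → ℂ) :=
  {p | ∃ u ∈ V, p = Sum.elim (fun i => u (Sum.inl i) + c (Sum.inl i))
    (fun i => c (Sum.inr i) * u (Sum.inr i))}

/-- the exponential point `(z, e^z)` -/
noncomputable def ExpPoint {n : ℕ} (z : Fin n → ℂ) : Fin n ⊕ Fin n → ℂ :=
  Sum.elim z (fun i => Complex.exp (z i))

/-- `tr.deg_{K(c)} K(c)(z, e^z)` -/
noncomputable def trdegOver {n : ℕ} (K : Subfield ℂ) (c : Fin n ⊕ Fin n → ℂ) (z : Fin n → ℂ) :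
    Cardinal :=
  Algebra.trdeg (IntermediateField.adjoin K (Set.range c))
    (IntermediateField.adjoin (IntermediateField.adjoin K (Set.range c)) (Set.range (ExpPoint z)))

theorem result {n : ℕ} (P : Ideal (MvPolynomial (Fin n ⊕ Fin n) ℂ))
    (V : Set (Fin n ⊕ Fin n → ℂ)) (hV : IsVariety P V) (hfree : Free V)
    (hdim : ∃ d, n ≤ d ∧ HasDim V d) (J : Finset (Fin n)) (hJ : CurveBase V J) :
    -- (1) exponential points on all translates
    (∀ c : Fin n ⊕ Fin n → ℂ, (∀ i, c (Sum.inr i) ≠ 0) → ∀ H : MvPolynomial (Fin n) ℂ,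
      (∃ p ∈ Translate c V, eval (fun j => p (base J j)) H ≠ 0) →
      ∃ z : Fin n → ℂ, ExpPoint z ∈ Translate c V ∧
        eval (fun j => ExpPoint z (base J j)) H ≠ 0) ∧
    -- (2) generic exponential points on almost all translates
    (HasDim V n → ∀ (K : Subfield ℂ) [Countable K],
      (∃ S : Set (MvPolynomial (Fin n ⊕ Fin n) K),
        P = Ideal.span (MvPolynomial.map (algebraMap K ℂ) '' S)) →
      ∀ᵐ c : Fin n ⊕ Fin n → ℂ, ∃ z : Fin n → ℂ, ExpPoint z ∈ Translate c V ∧
        trdegOver K c z = n) := by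
  have part1 : ∀ c : Fin n ⊕ Fin n → ℂ, (∀ i, c (Sum.inr i) ≠ 0) →
      ∀ H : MvPolynomial (Fin n) ℂ,
      (∃ p ∈ Translate c V, eval (fun j => p (base J j)) H ≠ 0) →
      ∃ z : Fin n → ℂ, ExpPoint z ∈ Translate c V ∧
        eval (fun j => ExpPoint z (base J j)) H ≠ 0 := by
    obtain ⟨d, hnd, ⟨J0, hJ0, hJ0i⟩, -⟩ := hdim
    intro c hc H hH
    exact Pool.Agent.Q72.MX.vm_translate Pool.Agent.Q72.MX.all_VM P V hV.prime hV.points
      hfree.add hfree.mul ⟨J0, by omega, hJ0i⟩ J hJ c hc H hH
  refine ⟨part1, ?_⟩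
  rintro ⟨-, hd⟩ K hK ⟨S, hS⟩
  have h1 := Pool.Agent.Y563.SE.generic_pts P V hV.prime hV.points hV.nonempty (by
    intro J' hJ'
    have h1 := hd J' hJ'
    unfold Indep at h1
    push Not at h1
    obtain ⟨f, h2, h3, h4⟩ := h1
    exact ⟨f, h4, h2, h3⟩) K S hS
  have h2 : ∀ᵐ c : Fin n ⊕ Fin n → ℂ, ∀ i : Fin n, c (Sum.inr i) ≠ 0 := by
    rw [ae_all_iff]
    intro i
    rw [ae_iff]
    simp only [not_not]
    exact Pool.Agent.Y563.SE.null_fintype (fun c : Fin n ⊕ Fin n → ℂ => c (Sum.inr i))
      (differentiable_apply _) ⟨fun _ => 1, one_ne_zero⟩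
  filter_upwards [h1, h2] with c hc1 hc2
  obtain ⟨u, hu⟩ := hV.nonempty
  obtain ⟨z, hz, -⟩ := part1 c hc2 1 ⟨_, ⟨u, hu, rfl⟩, by simp⟩
  exact ⟨z, hz, hc1 z hz⟩

end Pool.Agent.Results.MP_209724_lc.MixedCurves
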